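import Mathlib.Analysis.Complex.Polynomial.Basic
import Pool.Agent.MP_79c67d_ag.h36.Defs
import Pool.Agent.MP_79c67d_ag.h36.Two

/-! Butler's conjecture fails in type `(g - 2, 3 g - 5, g)` on curves of even genus `g = 2 m ≥ 6`
and maximal Clifford index, although both moduli spaces are nonempty. -/

open Pool.Agent.MP_79c67d_ag
open scoped IntermediateField

namespace Pool.Agent.Results.MP_79c67d_ag.BothNonempty

theorem result (F : Type) [Field F] [Algebra ℂ F] (x : F) (hx : Transcendental ℂ x)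
    [FiniteDimensional ℂ⟮x⟯ F] (m : ℕ) (hm : 3 ≤ m) (hg : genus ℂ F = 2 * m)
    (W : Divisor ℂ F) (hW : deg W = 4 * m - 2 ∧ h0 W = 2 * m)
    (cliff : ∀ D : Divisor ℂ F, 2 ≤ h0 D → 2 ≤ h0 (W - D) →
      (m : ℤ) - 1 ≤ deg D - 2 * (h0 D - 1))
    (pencil : ∃ T : Divisor ℂ F, deg T = m + 1 ∧ 2 ≤ h0 T) :
    (∃ T : CohSys ℂ F 2, T.HasType (6 * m - 5) (2 * m) ∧ T.Generated ∧
      ∃ ε : ℝ, 0 < ε ∧ ∀ α, 0 < α → α < ε → T.Stable α) ∧
    (∃ S : CohSys ℂ F (2 * m - 2), S.HasType (6 * m - 5) (2 * m) ∧ S.Generated ∧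
      h0 (S.E.detDiv - W) = 0 ∧ ∃ ε : ℝ, 0 < ε ∧ ∀ α, 0 < α → α < ε → S.Stable α) ∧
    (∀ S : CohSys ℂ F (2 * m - 2), S.HasType (6 * m - 5) (2 * m) → S.Generated →
      h0 (S.E.detDiv - W) = 0 → ∀ α : ℝ, 0 < α → S.Stable α →
        (∃ T : CohSys ℂ F 2, S.IsDualSpan T) ∧
        ∀ T : CohSys ℂ F 2, S.IsDualSpan T →
          T.HasType (6 * m - 5) (2 * m) ∧ ∀ β : ℝ, 0 < β → ¬ T.Stable β) := by
  have := FF.isFF_of_transcendental hx
  obtain ⟨T0, hT, hT'⟩ := pencil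
  have h := H36.exists_mx hm hg hW.1 hW.2 cliff hT hT'
  refine ⟨h.exists_stable_two, h.exists_stable (by omega), fun S hS hgen hdet α hα hst => ?_⟩
  obtain ⟨hd, hn⟩ := hS
  have : FiniteDimensional ℂ S.V := Module.finite_of_finrank_pos (by omega)
  refine ⟨hgen.exists_dualSpan hn (by omega), fun T hT => ?_⟩
  have h1 : T.HasType (6 * m - 5) (2 * m) := ⟨(hgen.deg_dualSpan hT).trans hd,
    (hgen.dim_dualSpan hT (by omega) hα hst (by omega) (by omega)).trans hn⟩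
  exact ⟨h1, fun β hβ => h.not_stable T h1
    (((H36.lin_dualSpan hgen hT).h0_sub W).symm.trans hdet) hβ⟩

end Pool.Agent.Results.MP_79c67d_ag.BothNonempty
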