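import Mathlib
import Pool.Agent.MP_79c67d_ag.Dual

/-! Butler's conjecture fails in type `(2g - 2, 4g - 3, 2g)` on every non-hyperelliptic curve of
genus `g ≥ 3`. -/

open Pool.Agent.MP_79c67d_ag
open scoped IntermediateField

namespace Pool.Agent.Results.MP_79c67d_ag.Disproof

theorem result (F : Type) [Field F] [Algebra ℂ F] (x : F) (hx : Transcendental ℂ x)
    [FiniteDimensional ℂ⟮x⟯ F] (nh : ∀ D : Divisor ℂ F, deg D = 2 → h0 D ≤ 1)
    (g : ℕ) (hg : g = genus ℂ F) :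
    3 ≤ g ∧
    (∃ S : CohSys ℂ F (2 * g - 2), S.HasType (4 * g - 3) (2 * g) ∧ S.Generated ∧
      ∃ ε : ℝ, 0 < ε ∧ ∀ α, 0 < α → α < ε → S.Stable α) ∧
    (∀ T : CohSys ℂ F 2, T.HasType (4 * g - 3) (2 * g) → ∀ α : ℝ, 0 < α → ¬ T.Stable α) ∧
    (∀ S : CohSys ℂ F (2 * g - 2), S.HasType (4 * g - 3) (2 * g) → S.Generated →
      ∀ α : ℝ, 0 < α → S.Stable α →
        (∃ T : CohSys ℂ F 2, S.IsDualSpan T) ∧
        ∀ T : CohSys ℂ F 2, S.IsDualSpan T →
          T.HasType (4 * g - 3) (2 * g) ∧ ∀ β : ℝ, 0 < β → ¬ T.Stable β) := by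
  have := FF.isFF_of_transcendental hx
  obtain ⟨W, hW⟩ := exists_can nh
  rw [← hg] at hW
  have h3 := hW.three_le
  refine ⟨h3, hW.exists_stable (by omega), fun T hT α hα => hW.not_stable T hT hα,
    fun S hS hgen α hα hst => ?_⟩
  obtain ⟨hd, hn⟩ := hS
  have : FiniteDimensional ℂ S.V := Module.finite_of_finrank_pos (by omega)
  refine ⟨hgen.exists_dualSpan hn (by omega), fun T hT => ?_⟩
  have h1 : T.HasType (4 * g - 3) (2 * g) := ⟨(hgen.deg_dualSpan hT).trans hd,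
    (hgen.dim_dualSpan hT (by omega) hα hst (by omega) (by omega)).trans hn⟩
  exact ⟨h1, fun β hβ => hW.not_stable T h1 hβ⟩

end Pool.Agent.Results.MP_79c67d_ag.Disproof
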